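import Mathlib

/-!
# The order of `1 + x + x^(2^r) + x^(2^r+2)` over `F_2` is `4^r + 2^r + 1`

Write `q = 2 ^ r`. Apart from `1`, the roots of the polynomial are the `q + 1` distinct roots of
`1 + x ^ q + x ^ (q + 1)`. If `α = c β` with `α ≠ β` two such roots, then eliminating the term of
degree `q + 1` shows that `β ^ q`, hence `β`, is determined by `c`. So the `q (q + 1)` quotients
of two distinct roots are pairwise distinct and different from `1`; all of them are `e`-th roots of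
unity if the polynomial divides `1 + x ^ e`, hence `e ≥ q ^ 2 + q + 1`.
-/

set_option autoImplicit false

namespace Pool.Agent.Results.MP_9cbaed_nt.ExactOrder

open Polynomial

/-- `f_{r,2} = 1 + x + x^(2^r) + x^(2^r + 2)` over `F_2`. -/
noncomputable def f (r : ℕ) : (ZMod 2)[X] := 1 + X + X ^ (2 ^ r) + X ^ (2 ^ r + 2)

/-- The reciprocal polynomial `f_{(R),r,2} = 1 + x^2 + x^(2^r+1) + x^(2^r+2)`. -/
noncomputable def fR (r : ℕ) : (ZMod 2)[X] := 1 + X ^ 2 + X ^ (2 ^ r + 1) + X ^ (2 ^ r + 2)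

/-- `IsOrder g e`: the order of `g` is `e`, i.e. `e` is the least positive integer such that `g`
divides `1 + x ^ e`. -/
def IsOrder (g : (ZMod 2)[X]) (e : ℕ) : Prop := IsLeast {e : ℕ | 0 < e ∧ g ∣ 1 + X ^ e} e

theorem two_zero : (2 : (ZMod 2)[X]) = 0 := by
  rw [← map_ofNat (C : ZMod 2 →+* (ZMod 2)[X]) 2, show (OfNat.ofNat 2 : ZMod 2) = 0 from rfl, C_0]

theorem two_eq_zero {A : Type*} [CommRing A] [Algebra (ZMod 2) A] : (2 : A) = 0 := by
  rw [← map_ofNat (algebraMap (ZMod 2) A) 2, show (OfNat.ofNat 2 : ZMod 2) = 0 from rfl, map_zero]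

theorem add_pow_q {A : Type*} [CommRing A] [Algebra (ZMod 2) A] (a b : A) (r : ℕ) :
    (a + b) ^ 2 ^ r = a ^ 2 ^ r + b ^ 2 ^ r := by
  induction r with
  | zero => simp
  | succ r ih =>
    rw [pow_succ, pow_mul, pow_mul, pow_mul, ih]
    linear_combination (a ^ 2 ^ r * b ^ 2 ^ r) * (two_eq_zero (A := A))

/-- the main factor `1 + x^q + x^(q+1)` -/
noncomputable def g (r : ℕ) : (ZMod 2)[X] := 1 + X ^ (2 ^ r) + X ^ (2 ^ r + 1)

/-- the main factor `1 + x + x^(q+1)` of the reciprocal -/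
noncomputable def gR (r : ℕ) : (ZMod 2)[X] := 1 + X + X ^ (2 ^ r + 1)

theorem f_eq (r : ℕ) : f r = (1 + X) * g r := by
  unfold f g
  linear_combination (-X ^ (2 ^ r + 1)) * two_zero

theorem fR_eq (r : ℕ) : fR r = (1 + X) * gR r := by
  unfold fR gR
  linear_combination (-X) * two_zero

theorem expo (r : ℕ) : 4 ^ r + 2 ^ r + 1 = 2 ^ r * 2 ^ r + 2 ^ r + 1 := by
  rw [show 4 = 2 * 2 from rfl, mul_pow]

theorem g_dvd (r : ℕ) : g r ∣ 1 + X ^ (4 ^ r + 2 ^ r + 1) := by
  rw [← AdjoinRoot.mk_eq_zero, expo]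
  set x := AdjoinRoot.root (g r) with hx
  have hrel : 1 + x ^ 2 ^ r + x ^ (2 ^ r + 1) = 0 := by
    have h : AdjoinRoot.mk (g r) (1 + X ^ (2 ^ r) + X ^ (2 ^ r + 1)) = 0 := AdjoinRoot.mk_self
    simpa only [map_add, map_one, map_pow, AdjoinRoot.mk_X] using h
  have h2 : (2 : AdjoinRoot (g r)) = 0 := two_eq_zero
  have hrel2 : 1 + x ^ (2 ^ r * 2 ^ r) + x ^ (2 ^ r * 2 ^ r + 2 ^ r) = 0 := by
    have h := congrArg (fun z => z ^ 2 ^ r) hrel
    simp only [add_pow_q, one_pow] at h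
    rw [zero_pow (by positivity)] at h
    rw [← pow_mul, ← pow_mul] at h
    rw [show 2 ^ r * 2 ^ r + 2 ^ r = (2 ^ r + 1) * 2 ^ r by ring]
    exact h
  simp only [map_add, map_one, map_pow, AdjoinRoot.mk_X, ← hx]
  have e1 : x ^ (2 ^ r * 2 ^ r + 2 ^ r + 1) = x ^ (2 ^ r * 2 ^ r) * (x ^ (2 ^ r + 1)) := by ring
  have e2 : x ^ (2 ^ r * 2 ^ r + 2 ^ r) = x ^ (2 ^ r * 2 ^ r) * x ^ 2 ^ r := by ring
  rw [e1]
  rw [e2] at hrel2
  linear_combination x ^ (2 ^ r * 2 ^ r) * hrel - hrel2 + 1 * h2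

theorem gR_dvd (r : ℕ) : gR r ∣ 1 + X ^ (4 ^ r + 2 ^ r + 1) := by
  rw [← AdjoinRoot.mk_eq_zero, expo]
  set x := AdjoinRoot.root (gR r) with hx
  have hrel : 1 + x + x ^ (2 ^ r + 1) = 0 := by
    have h : AdjoinRoot.mk (gR r) (1 + X + X ^ (2 ^ r + 1)) = 0 := AdjoinRoot.mk_self
    simpa only [map_add, map_one, map_pow, AdjoinRoot.mk_X] using h
  have h2 : (2 : AdjoinRoot (gR r)) = 0 := two_eq_zero
  have hrel2 : 1 + x ^ 2 ^ r + x ^ (2 ^ r * 2 ^ r + 2 ^ r) = 0 := by
    have h := congrArg (fun z => z ^ 2 ^ r) hrel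
    simp only [add_pow_q, one_pow] at h
    rw [zero_pow (by positivity)] at h
    rw [← pow_mul] at h
    rw [show 2 ^ r * 2 ^ r + 2 ^ r = (2 ^ r + 1) * 2 ^ r by ring]
    exact h
  simp only [map_add, map_one, map_pow, AdjoinRoot.mk_X, ← hx]
  have e1 : x ^ (2 ^ r * 2 ^ r + 2 ^ r + 1) = x ^ (2 ^ r * 2 ^ r + 2 ^ r) * x := by ring
  have e2 : x ^ (2 ^ r + 1) = x ^ 2 ^ r * x := by ring
  rw [e1]
  rw [e2] at hrel
  linear_combination x * hrel2 - hrel + 1 * h2

theorem one_add_X_dvd (N : ℕ) : (1 + X : (ZMod 2)[X]) ∣ 1 + X ^ N := by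
  have h1 : (1 + X : (ZMod 2)[X]) = X - C 1 := by
    rw [C_1]; linear_combination (1 : (ZMod 2)[X]) * two_zero
  rw [h1, dvd_iff_isRoot, IsRoot]
  simp only [eval_add, eval_one, eval_pow, eval_X, one_pow]
  rfl

theorem f_dvd (r : ℕ) : f r ∣ 1 + X ^ (4 ^ r + 2 ^ r + 1) := by
  rw [f_eq]
  refine IsCoprime.mul_dvd ?_ (one_add_X_dvd _) (g_dvd r)
  refine ⟨-X ^ 2 ^ r, 1, ?_⟩
  unfold g; ring

theorem fR_dvd (r : ℕ) : fR r ∣ 1 + X ^ (4 ^ r + 2 ^ r + 1) := by
  rw [fR_eq]
  refine IsCoprime.mul_dvd ?_ (one_add_X_dvd _) (gR_dvd r)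
  -- `gR = 1 + x (1 + x^q)` and `1 + x ∣ 1 + x^q`
  obtain ⟨h, hh⟩ := one_add_X_dvd (2 ^ r)
  refine ⟨-X * h, 1, ?_⟩
  have : gR r = 1 + X * (1 + X ^ 2 ^ r) := by unfold gR; ring
  rw [this, hh]; ring

/-- An algebraic closure of `F_2`. -/
abbrev K := AlgebraicClosure (ZMod 2)

/-- The separable polynomial `g` has `q + 1` roots in the algebraic closure. -/
theorem card_roots (r : ℕ) : ∃ D : Finset (AlgebraicClosure (ZMod 2)), D.card = 2 ^ r + 1 ∧
    ∀ α ∈ D, 1 + α ^ 2 ^ r + α ^ (2 ^ r + 1) = 0 := by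
  classical
  rcases Nat.eq_zero_or_pos r with rfl | hr
  · -- r = 0 : `1 + x + x^2`
    have hsep : (1 + X + X ^ 2 : (ZMod 2)[X]).Separable := by
      rw [separable_def]
      refine ⟨0, 1, ?_⟩
      simp only [derivative_add, derivative_one, derivative_X, derivative_X_pow]
      simp only [Nat.cast_ofNat, C_ofNat]
      linear_combination X * two_zero
    have hdeg : (1 + X + X ^ 2 : (ZMod 2)[X]).natDegree = 2 := by compute_degree!
    have hne : (1 + X + X ^ 2 : (ZMod 2)[X]) ≠ 0 := by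
      intro h; rw [h] at hdeg; simp at hdeg
    refine ⟨(1 + X + X ^ 2 : (ZMod 2)[X]).rootSet (AlgebraicClosure (ZMod 2)) |>.toFinset, ?_, ?_⟩
    · rw [Set.toFinset_card, card_rootSet_eq_natDegree hsep (IsAlgClosed.splits _), hdeg]
      norm_num
    · intro α hα
      rw [Set.mem_toFinset, mem_rootSet] at hα
      have := hα.2
      simp at this
      simpa using this
  · have hq : ((2 ^ r : ℕ) : ZMod 2) = 0 := by
      rw [Nat.cast_pow, show ((2 : ℕ) : ZMod 2) = 0 from rfl, zero_pow hr.ne']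
    have hder : derivative (g r) = X ^ 2 ^ r := by
      unfold g
      simp only [derivative_add, derivative_one, derivative_X_pow, Nat.cast_add, Nat.cast_one]
      rw [hq]
      simp
    have hsep : (g r).Separable := by
      rw [separable_def, hder]
      refine ⟨1, -(1 + X), ?_⟩
      unfold g; ring
    have hdeg : (g r).natDegree = 2 ^ r + 1 := by
      unfold g
      have h1 : (1 + X ^ 2 ^ r : (ZMod 2)[X]).natDegree < 2 ^ r + 1 := by
        refine lt_of_le_of_lt (natDegree_add_le _ _) ?_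
        simp
      rw [natDegree_add_eq_right_of_natDegree_lt (by rw [natDegree_X_pow]; exact h1),
        natDegree_X_pow]
    refine ⟨(g r).rootSet (AlgebraicClosure (ZMod 2)) |>.toFinset, ?_, ?_⟩
    · rw [Set.toFinset_card, card_rootSet_eq_natDegree hsep (IsAlgClosed.splits _), hdeg]
    · intro α hα
      rw [Set.mem_toFinset, mem_rootSet] at hα
      have := hα.2
      simpa [g] using this

/-- If all roots of `1 + x^q + x^(q+1)` are `e`-th roots of unity then `e ≥ q^2 + q + 1`. -/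
theorem le_of_roots (r e : ℕ) (he : 0 < e)
    (h : ∀ α : AlgebraicClosure (ZMod 2), 1 + α ^ 2 ^ r + α ^ (2 ^ r + 1) = 0 → α ^ e = 1) :
    4 ^ r + 2 ^ r + 1 ≤ e := by
  classical
  obtain ⟨D, hD, hroot⟩ := card_roots r
  have h2 : (2 : K) = 0 := two_eq_zero
  have hne : ∀ α ∈ D, α ≠ 0 := by
    intro α hα h0
    have := hroot α hα
    rw [h0, zero_pow (by positivity), zero_pow (by positivity)] at this
    simp at this
  -- uniqueness
  have huniq : ∀ c β : K, c ≠ 0 → c ≠ 1 → 1 + β ^ 2 ^ r + β ^ (2 ^ r + 1) = 0 →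
      1 + (c * β) ^ 2 ^ r + (c * β) ^ (2 ^ r + 1) = 0 →
      β ^ 2 ^ r = (c ^ (2 ^ r + 1) + 1) / (c ^ 2 ^ r * (c + 1)) := by
    intro c β hc0 hc1 hb hcb
    have hc1' : c + 1 ≠ 0 := by
      intro h0
      apply hc1
      linear_combination h0 - h2
    rw [eq_div_iff (mul_ne_zero (pow_ne_zero _ hc0) hc1')]
    rw [mul_pow, mul_pow] at hcb
    have e1 : c ^ (2 ^ r + 1) = c ^ 2 ^ r * c := pow_succ _ _
    rw [e1] at hcb ⊢
    linear_combination hcb - c ^ 2 ^ r * c * hb + (c ^ 2 ^ r * c * β ^ 2 ^ r - 1) * h2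
  have hinj : Set.InjOn (fun p : K × K => p.1 / p.2) (D.offDiag : Finset (K × K)) := by
    rintro ⟨a, b⟩ hab ⟨a', b'⟩ hab' heq
    simp only [Finset.coe_offDiag, Set.mem_offDiag, Finset.mem_coe] at hab hab'
    obtain ⟨ha, hb, hne1⟩ := hab
    obtain ⟨ha', hb', hne1'⟩ := hab'
    simp only at heq
    set c := a / b with hc
    have hb0 := hne b hb
    have hb0' := hne b' hb'
    have hcb : c * b = a := div_mul_cancel₀ a hb0
    have hcb' : c * b' = a' := by rw [heq]; exact div_mul_cancel₀ a' hb0'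
    have hc0 : c ≠ 0 := div_ne_zero (hne a ha) hb0
    have hc1 : c ≠ 1 := by
      intro h1; apply hne1; rw [← hcb, h1, one_mul]
    have e1 := huniq c b hc0 hc1 (hroot b hb) (by rw [hcb]; exact hroot a ha)
    have e2 := huniq c b' hc0 hc1 (hroot b' hb') (by rw [hcb']; exact hroot a' ha')
    have e3 : b ^ 2 ^ r = b' ^ 2 ^ r := e1.trans e2.symm
    have e4 : (b + b') ^ 2 ^ r = 0 := by
      rw [add_pow_q, e3]; linear_combination (b' ^ 2 ^ r) * h2
    have e5 : b + b' = 0 := by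
      by_contra h0
      exact pow_ne_zero _ h0 e4
    have e6 : b = b' := by linear_combination e5 - b' * h2
    rw [Prod.mk.injEq]
    exact ⟨by rw [← hcb, ← hcb', e6], e6⟩
  have hsub : insert 1 (D.offDiag.image (fun p : K × K => p.1 / p.2)) ⊆
      (nthRoots e (1 : K)).toFinset := by
    intro z hz
    rw [Multiset.mem_toFinset, mem_nthRoots he]
    rw [Finset.mem_insert, Finset.mem_image] at hz
    rcases hz with rfl | ⟨⟨a, b⟩, hab, rfl⟩
    · simp
    · rw [Finset.mem_offDiag] at hab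
      simp only
      rw [div_pow, h a (hroot a hab.1), h b (hroot b hab.2.1), div_one]
  have hnot : (1 : K) ∉ D.offDiag.image (fun p : K × K => p.1 / p.2) := by
    intro hz
    rw [Finset.mem_image] at hz
    obtain ⟨⟨a, b⟩, hab, h1⟩ := hz
    rw [Finset.mem_offDiag] at hab
    simp only at h1
    exact hab.2.2 ((div_eq_one_iff_eq (hne b hab.2.1)).mp h1)
  have hcard := Finset.card_le_card hsub
  rw [Finset.card_insert_of_notMem hnot, Finset.card_image_of_injOn hinj, Finset.offDiag_card,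
    hD] at hcard
  have hle : (nthRoots e (1 : K)).toFinset.card ≤ e :=
    (Multiset.toFinset_card_le _).trans (card_nthRoots e 1)
  rw [expo]
  have e7 : (2 ^ r + 1) * (2 ^ r + 1) - (2 ^ r + 1) = 2 ^ r * 2 ^ r + 2 ^ r := by
    rw [Nat.sub_eq_iff_eq_add (Nat.le_mul_self _)]; ring
  rw [e7] at hcard
  exact hcard.trans hle

theorem aeval_eq (e : ℕ) (α : AlgebraicClosure (ZMod 2)) (P : (ZMod 2)[X]) (hP : P ∣ 1 + X ^ e)
    (hα : aeval α P = 0) : α ^ e = 1 := by
  obtain ⟨Q, hQ⟩ := hP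
  have := congrArg (aeval α) hQ
  rw [map_mul, hα, zero_mul] at this
  simp only [map_add, map_one, map_pow, aeval_X] at this
  have h2 : (2 : AlgebraicClosure (ZMod 2)) = 0 := two_eq_zero
  linear_combination this - h2

/-- **Main theorem**: for every `r` (in particular for every `r ≥ 3`) the order of
`f_{r,2} = 1 + x + x^(2^r) + x^(2^r+2)` and of its reciprocal is exactly `4^r + 2^r + 1`. -/
theorem result (r : ℕ) :
    IsOrder (f r) (4 ^ r + 2 ^ r + 1) ∧ IsOrder (fR r) (4 ^ r + 2 ^ r + 1) := by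
  refine ⟨⟨⟨by positivity, f_dvd r⟩, ?_⟩, ⟨⟨by positivity, fR_dvd r⟩, ?_⟩⟩
  · rintro e ⟨he, hdvd⟩
    refine le_of_roots r e he fun α hα => aeval_eq e α (f r) hdvd ?_
    rw [f_eq, map_mul]
    have : aeval α (g r) = 0 := by simpa [g] using hα
    rw [this, mul_zero]
  · rintro e ⟨he, hdvd⟩
    refine le_of_roots r e he fun α hα => ?_
    have hα0 : α ≠ 0 := by
      rintro rfl
      rw [zero_pow (by positivity), zero_pow (by positivity)] at hα
      simp at hα
    have h1 : aeval α⁻¹ (fR r) = 0 := by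
      rw [fR_eq, map_mul]
      have : aeval α⁻¹ (gR r) = 0 := by
        simp only [gR, map_add, map_one, map_pow, aeval_X]
        have e1 : (1 + α⁻¹ + α⁻¹ ^ (2 ^ r + 1)) * α ^ (2 ^ r + 1) = 0 := by
          have e2 : α⁻¹ ^ (2 ^ r + 1) * α ^ (2 ^ r + 1) = 1 := by
            rw [← mul_pow, inv_mul_cancel₀ hα0, one_pow]
          have e3 : α⁻¹ * α ^ (2 ^ r + 1) = α ^ 2 ^ r := by
            rw [pow_succ']; field_simp
          linear_combination hα + e2 + e3
        rcases mul_eq_zero.mp e1 with h | h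
        · exact h
        · exact absurd h (pow_ne_zero _ hα0)
      rw [this, mul_zero]
    have h2 := aeval_eq e α⁻¹ (fR r) hdvd h1
    rw [inv_pow, inv_eq_one] at h2
    exact h2

end Pool.Agent.Results.MP_9cbaed_nt.ExactOrder
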